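import Pool.Agent.H97.LUY.Cel

/-!
Project LU, part Y, module BRG, third part: the cells of small dimension; Laplacians in terms of
bases of the parts of fixed degree.
-/

set_option autoImplicit false
set_option linter.unusedVariables false
set_option linter.unusedSectionVars false

open scoped BigOperators Topology
open Filter Pool.H3.L2 Pool.H29.L2

noncomputable section

namespace Pool.LU.FK.Brg

/-! ### Laplacians and bases -/

/-- a basis of the part of degree `k` -/
structure Bas (B : BCx ℤ) (k : ℕ) (T : Type) where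
  g : T → B.S
  inj : Function.Injective g
  rng : ∀ s, B.deg s = k ↔ ∃ t, g t = s

namespace Bas

variable {B : BCx ℤ} {k : ℕ} {T T' : Type}

theorem deg (b : Bas B k T) (t : T) : B.deg (b.g t) = k := (b.rng _).2 ⟨t, rfl⟩

/-- the bijection -/
def E (b : Bas B k T) : {u : B.S // B.deg u = k} ≃ T :=
  (Equiv.ofBijective (fun t : T => (⟨b.g t, b.deg t⟩ : {u : B.S // B.deg u = k}))
    ⟨fun x y h => b.inj (congrArg Subtype.val h), fun s => by
      obtain ⟨t, ht⟩ := (b.rng s.1).1 s.2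
      exact ⟨t, Subtype.ext ht⟩⟩).symm

theorem gE (b : Bas B k T) (s : {u : B.S // B.deg u = k}) : b.g (b.E s) = s.1 := by
  have h := b.E.symm_apply_apply s
  exact congrArg Subtype.val h

theorem sum [Fintype T] (b : Bas B k T) (f : B.S → ℝ) (hf : ∀ j, B.deg j ≠ k → f j = 0) :
    ∑ j, f j = ∑ t, f (b.g t) :=
  (Fintype.sum_of_injective b.g b.inj (fun t => f (b.g t)) f
    (fun j hj => hf j fun h => hj ((b.rng j).1 h)) (fun _ => rfl)).symm

theorem sq (τ : B.S → ℤˣ) (s : B.S) : ((τ s : ℤ) : ℝ) * ((τ s : ℤ) : ℝ) = 1 := by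
  rcases Int.units_eq_one_or (τ s) with h | h <;> rw [h] <;> simp

theorem up [Fintype T'] (b' : Bas B (k + 1) T') (b : Bas B k T) (τ : B.S → ℤˣ)
    (M : Matrix T' T ℝ) (hM : ∀ x y, ((B.D (b'.g x) (b.g y) : ℤ) : ℝ) =
      ((τ (b'.g x) : ℤ) : ℝ) * ((τ (b.g y) : ℤ) : ℝ) * M x y) (y z : T) :
    ∑ j, ((B.D j (b.g y) : ℤ) : ℝ) * ((B.D j (b.g z) : ℤ) : ℝ) =
      ((τ (b.g y) : ℤ) : ℝ) * ((τ (b.g z) : ℤ) : ℝ) * (M.transpose * M) y z := by
  rw [b'.sum]
  · rw [Matrix.mul_apply, Finset.mul_sum]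
    refine Finset.sum_congr rfl fun x _ => ?_
    rw [hM, hM, Matrix.transpose_apply]
    linear_combination ((τ (b.g y) : ℤ) : ℝ) * ((τ (b.g z) : ℤ) : ℝ) * M x y * M x z *
      sq τ (b'.g x)
  · intro j hj
    have h0 : B.D j (b.g y) = 0 := by
      by_contra h
      apply hj
      rw [B.deg_D j _ h, b.deg]
    rw [h0, Int.cast_zero, zero_mul]

theorem down [Fintype T] (b' : Bas B (k + 1) T') (b : Bas B k T) (τ : B.S → ℤˣ)
    (M : Matrix T' T ℝ) (hM : ∀ x y, ((B.D (b'.g x) (b.g y) : ℤ) : ℝ) =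
      ((τ (b'.g x) : ℤ) : ℝ) * ((τ (b.g y) : ℤ) : ℝ) * M x y) (y z : T') :
    ∑ j, ((B.D (b'.g y) j : ℤ) : ℝ) * ((B.D (b'.g z) j : ℤ) : ℝ) =
      ((τ (b'.g y) : ℤ) : ℝ) * ((τ (b'.g z) : ℤ) : ℝ) * (M * M.transpose) y z := by
  rw [b.sum]
  · rw [Matrix.mul_apply, Finset.mul_sum]
    refine Finset.sum_congr rfl fun x _ => ?_
    rw [hM, hM, Matrix.transpose_apply]
    linear_combination ((τ (b'.g y) : ℤ) : ℝ) * ((τ (b'.g z) : ℤ) : ℝ) * M y x * M z x *
      sq τ (b.g x)
  · intro j hj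
    have h0 : B.D (b'.g y) j = 0 := by
      by_contra h
      have h1 := B.deg_D _ _ h
      rw [b'.deg] at h1
      exact hj (by omega)
    rw [h0, Int.cast_zero, zero_mul]

end Bas

theorem lap_cast (B : BCx ℤ) (k : ℕ) (s t : {u : B.S // B.deg u = k}) :
    ((lapZk B k s t : ℤ) : ℝ) = ∑ j, ((B.D s.1 j : ℤ) : ℝ) * ((B.D t.1 j : ℤ) : ℝ) +
      ∑ j, ((B.D j s.1 : ℤ) : ℝ) * ((B.D j t.1 : ℤ) : ℝ) := by
  have h : lapZk B k s t = ∑ j, B.D s.1 j * B.D t.1 j + ∑ j, B.D j s.1 * B.D j t.1 := rfl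
  rw [h]
  push_cast
  rfl

/-! ### sign vectors -/

theorem nz_lt {x y : SV} (h : ∀ i, x.1 i = 0 ∨ x.1 i = y.1 i) (hne : x ≠ y) : nz y < nz x := by
  unfold nz
  refine Finset.card_lt_card ((Finset.ssubset_iff_of_subset ?_).2 ?_)
  · intro i hi
    rw [Finset.mem_filter] at hi ⊢
    exact ⟨hi.1, (h i).elim id fun h1 => h1.trans hi.2⟩
  · by_contra hc
    push Not at hc
    apply hne
    refine Subtype.ext (funext fun i => ?_)
    rcases h i with h1 | h1
    · have h2 := hc i (Finset.mem_filter.2 ⟨Finset.mem_univ _, h1⟩)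
      rw [h1, (Finset.mem_filter.1 h2).2]
    · exact h1

theorem sadj_nz {x y : SV} (h : sadj x y) : nz x ≠ nz y := by
  rcases h.2 with h1 | h1
  · exact (nz_lt h1 h.1).ne'
  · exact (nz_lt h1 h.1.symm).ne

theorem sadj_irrefl (x : SV) : ¬ sadj x x := fun h => h.1 rfl

theorem sadj_symm {x y : SV} (h : sadj x y) : sadj y x := ⟨h.1.symm, h.2.symm⟩

theorem nz_le (x : SV) : nz x < 3 := by
  have h1 : nz x ≤ 3 := (Finset.card_filter_le _ _).trans (by simp)
  refine lt_of_le_of_ne h1 fun h => x.2 (funext fun i => ?_)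
  have h2 : (Finset.univ.filter fun i => x.1 i = 0) = Finset.univ := by
    refine Finset.eq_univ_of_card _ ?_
    rw [Fintype.card_fin]
    exact h
  have h3 : i ∈ Finset.univ.filter fun i => x.1 i = 0 := by rw [h2]; exact Finset.mem_univ i
  exact (Finset.mem_filter.1 h3).2

theorem nz_inj {σ : Finset SV} (h : Clq sadj σ) : Set.InjOn nz (σ : Set SV) := by
  intro x hx y hy hxy
  by_contra hne
  exact sadj_nz (h x hx y hy hne) hxy

theorem card_le {σ : Finset SV} (h : Clq sadj σ) : σ.card ≤ 3 := by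
  have h1 : (σ.image nz).card = σ.card := Finset.card_image_of_injOn (nz_inj h)
  rw [← h1]
  refine (Finset.card_le_card (t := Finset.range 3) fun n hn => ?_).trans (by simp)
  obtain ⟨x, _, rfl⟩ := Finset.mem_image.1 hn
  exact Finset.mem_range.2 (nz_le x)

/-! ### cells -/

variable (Y : YSet)

/-- all facts about the pairs -/
theorem e2_spec (q : C2a Y ⊕ C2b Y) : nz (e2 Y q).1.1 < nz (e2 Y q).1.2 ∧
    sadj (e2 Y q).1.1 (e2 Y q).1.2 ∧ Y.χ (e2 Y q).1.1 (e2 Y q).2 = 1 ∧
    Y.χ (e2 Y q).1.2 (e2 Y q).2 = 1 := by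
  rcases q with ⟨p, h⟩ | ⟨p, h⟩
  · show nz p.1.1 < nz p.1.2 ∧ sadj p.1.1 p.1.2 ∧ Y.χ p.1.1 p.2 = 1 ∧ Y.χ p.1.2 p.2 = 1
    refine ⟨?_, h.1.2, h.2⟩
    have h1 := sadj_nz h.1.2
    have h2 := h.1.1
    omega
  · show nz p.1.1 < nz p.1.2 ∧ sadj p.1.1 p.1.2 ∧ Y.χ p.1.1 p.2 = 1 ∧ Y.χ p.1.2 p.2 = 1
    refine ⟨?_, h.1.2.2, h.2⟩
    have h1 := h.1.1
    have h2 := h.1.2.1
    omega

theorem e1_spec (q : C1a Y ⊕ C1b Y) : Y.χ (e1 Y q).1 (e1 Y q).2 = 1 := by
  rcases q with ⟨p, h⟩ | ⟨p, h⟩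
  · exact h.2
  · exact h.2

theorem e1_inj : Function.Injective (e1 Y) := by
  rintro (⟨p, h⟩ | ⟨p, h⟩) (⟨q, h'⟩ | ⟨q, h'⟩) he
  · have : p = q := he
    subst this
    rfl
  · have : p = q := he
    subst this
    exact absurd h'.1 (by rintro (h1 | h1); exacts [h.1.1 h1, h.1.2 h1])
  · have : p = q := he
    subst this
    exact absurd h.1 (by rintro (h1 | h1); exacts [h'.1.1 h1, h'.1.2 h1])
  · have : p = q := he
    subst this
    rfl

theorem e2_inj : Function.Injective (e2 Y) := by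
  rintro (⟨p, h⟩ | ⟨p, h⟩) (⟨q, h'⟩ | ⟨q, h'⟩) he
  · have : p = q := he
    subst this
    rfl
  · have : p = q := he
    subst this
    have h1 := h.1.1
    have h2 := h'.1.1
    omega
  · have : p = q := he
    subst this
    have h1 := h.1.1
    have h2 := h'.1.1
    omega
  · have : p = q := he
    subst this
    rfl

theorem pair_eq {s t b c : SV} (h1 : nz s < nz t) (h2 : nz b < nz c) :
    ({s, t} : Finset SV) = {b, c} ↔ s = b ∧ t = c := by
  constructor
  · intro h
    have hs : s ∈ ({b, c} : Finset SV) := by rw [← h]; simp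
    have ht : t ∈ ({b, c} : Finset SV) := by rw [← h]; simp
    rw [Finset.mem_insert, Finset.mem_singleton] at hs ht
    rcases hs with rfl | rfl <;> rcases ht with rfl | rfl
    · exact absurd h1 (lt_irrefl _)
    · exact ⟨rfl, rfl⟩
    · exact absurd (h1.trans h2) (lt_irrefl _)
    · exact absurd h1 (lt_irrefl _)
  · rintro ⟨rfl, rfl⟩
    rfl

/-- 0-cells -/
def i0 (y : Y.X) : Cel sadj Y.χ := ⟨(∅, y), fun u hu => absurd hu (Finset.notMem_empty u),
  fun u hu => absurd hu (Finset.notMem_empty u)⟩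

/-- 1-cells -/
def i1 (q : C1a Y ⊕ C1b Y) : Cel sadj Y.χ := ⟨({(e1 Y q).1}, (e1 Y q).2), by
    intro u hu v hv huv
    rw [Finset.mem_singleton] at hu hv
    exact absurd (hu.trans hv.symm) huv,
  fun u hu => by
    rw [Finset.mem_singleton] at hu
    rw [hu]
    exact e1_spec Y q⟩

/-- 2-cells -/
def i2 (q : C2a Y ⊕ C2b Y) : Cel sadj Y.χ := ⟨({(e2 Y q).1.1, (e2 Y q).1.2}, (e2 Y q).2), by
    intro u hu v hv huv
    simp only [Finset.mem_insert, Finset.mem_singleton] at hu hv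
    obtain ⟨_, h, _⟩ := e2_spec Y q
    rcases hu with rfl | rfl <;> rcases hv with rfl | rfl
    · exact absurd rfl huv
    · exact h
    · exact sadj_symm h
    · exact absurd rfl huv,
  fun u hu => by
    simp only [Finset.mem_insert, Finset.mem_singleton] at hu
    rcases hu with rfl | rfl
    · exact (e2_spec Y q).2.2.1
    · exact (e2_spec Y q).2.2.2⟩

/-- 3-cells -/
def i3 (q : C3 Y) : Cel sadj Y.χ := ⟨({q.1.1.1, q.1.1.2.1, q.1.1.2.2}, q.1.2), by
    intro u hu v hv huv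
    simp only [Finset.mem_insert, Finset.mem_singleton] at hu hv
    obtain ⟨⟨_, _, _, h1, h2, h3⟩, _⟩ := q.2
    rcases hu with rfl | rfl | rfl <;> rcases hv with rfl | rfl | rfl
    · exact absurd rfl huv
    · exact h1
    · exact h3
    · exact sadj_symm h1
    · exact absurd rfl huv
    · exact h2
    · exact sadj_symm h3
    · exact sadj_symm h2
    · exact absurd rfl huv,
  fun u hu => by
    simp only [Finset.mem_insert, Finset.mem_singleton] at hu
    obtain ⟨_, h1, h2, h3⟩ := q.2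
    rcases hu with rfl | rfl | rfl
    · exact h1
    · exact h2
    · exact h3⟩

theorem i0_inj : Function.Injective (i0 Y) := fun x y h =>
  congrArg Prod.snd (congrArg Subtype.val h)

theorem i1_inj : Function.Injective (i1 Y) := fun x y h => by
  have h1 : ({(e1 Y x).1} : Finset SV) = {(e1 Y y).1} := congrArg Prod.fst (congrArg Subtype.val h)
  have h2 : (e1 Y x).2 = (e1 Y y).2 := congrArg (fun c : Cel sadj Y.χ => c.1.2) h
  exact e1_inj Y (Prod.ext (Finset.singleton_injective h1) h2)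

theorem i2_inj : Function.Injective (i2 Y) := fun x y h => by
  have h1 : ({(e2 Y x).1.1, (e2 Y x).1.2} : Finset SV) = {(e2 Y y).1.1, (e2 Y y).1.2} :=
    congrArg Prod.fst (congrArg Subtype.val h)
  have h2 : (e2 Y x).2 = (e2 Y y).2 := congrArg (fun c : Cel sadj Y.χ => c.1.2) h
  obtain ⟨h3, h4⟩ := (pair_eq (e2_spec Y x).1 (e2_spec Y y).1).1 h1
  exact e2_inj Y (Prod.ext (Prod.ext h3 h4) h2)

theorem i3_inj : Function.Injective (i3 Y) := by
  rintro ⟨⟨⟨a, b, c⟩, y⟩, ⟨n1, n2, n3, _⟩, h⟩ ⟨⟨⟨a', b', c'⟩, y'⟩, ⟨n1', n2', n3', _⟩, h'⟩ he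
  have h1 : ({a, b, c} : Finset SV) = {a', b', c'} := congrArg Prod.fst (congrArg Subtype.val he)
  have h2 : y = y' := congrArg Prod.snd (congrArg Subtype.val he)
  simp only at n1 n2 n3 n1' n2' n3'
  have ha : a ∈ ({a', b', c'} : Finset SV) := by rw [← h1]; simp
  have hb : b ∈ ({a', b', c'} : Finset SV) := by rw [← h1]; simp
  have hc : c ∈ ({a', b', c'} : Finset SV) := by rw [← h1]; simp
  simp only [Finset.mem_insert, Finset.mem_singleton] at ha hb hc
  have ea : a = a' := by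
    rcases ha with rfl | rfl | rfl
    · rfl
    · omega
    · omega
  have eb : b = b' := by
    rcases hb with rfl | rfl | rfl
    · omega
    · rfl
    · omega
  have ec : c = c' := by
    rcases hc with rfl | rfl | rfl
    · omega
    · omega
    · rfl
  subst ea eb ec h2
  rfl

theorem i0_rng (c : Cel sadj Y.χ) : c.1.1.card = 0 ↔ ∃ t, i0 Y t = c := by
  constructor
  · intro h
    rw [Finset.card_eq_zero] at h
    exact ⟨c.1.2, Subtype.ext (Prod.ext h.symm rfl)⟩
  · rintro ⟨t, rfl⟩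
    rfl

theorem i1_rng (c : Cel sadj Y.χ) : c.1.1.card = 1 ↔ ∃ t, i1 Y t = c := by
  constructor
  · intro h
    obtain ⟨v, hv⟩ := Finset.card_eq_one.1 h
    have hχ : Y.χ v c.1.2 = 1 := c.2.2 v (by rw [hv]; simp)
    by_cases h1 : v = v1 ∨ v = v2
    · exact ⟨Sum.inr ⟨(v, c.1.2), h1, hχ⟩, Subtype.ext (Prod.ext hv.symm rfl)⟩
    · exact ⟨Sum.inl ⟨(v, c.1.2), ⟨fun h => h1 (Or.inl h), fun h => h1 (Or.inr h)⟩, hχ⟩,
        Subtype.ext (Prod.ext hv.symm rfl)⟩
  · rintro ⟨t, rfl⟩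
    exact Finset.card_singleton _

theorem i2_rng (c : Cel sadj Y.χ) : c.1.1.card = 2 ↔ ∃ t, i2 Y t = c := by
  constructor
  · intro h
    have key : ∀ x y : SV, c.1.1 = {x, y} → nz x < nz y → ∃ t, i2 Y t = c := by
      intro x y hxy hlt
      have hx : x ∈ c.1.1 := by rw [hxy]; simp
      have hy : y ∈ c.1.1 := by rw [hxy]; simp
      have hne : x ≠ y := fun h => by rw [h] at hlt; exact lt_irrefl _ hlt
      have hs : sadj x y := c.2.1 x hx y hy hne
      have h1 := nz_le y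
      by_cases h0 : nz x = 0
      · exact ⟨Sum.inl ⟨((x, y), c.1.2), ⟨h0, hs⟩, c.2.2 x hx, c.2.2 y hy⟩,
          Subtype.ext (Prod.ext hxy.symm rfl)⟩
      · exact ⟨Sum.inr ⟨((x, y), c.1.2), ⟨by show nz x = 1; omega, by show nz y = 2; omega, hs⟩,
          c.2.2 x hx, c.2.2 y hy⟩, Subtype.ext (Prod.ext hxy.symm rfl)⟩
    obtain ⟨x, y, hne, hxy⟩ := Finset.card_eq_two.1 h
    have hs : sadj x y := c.2.1 x (by rw [hxy]; simp) y (by rw [hxy]; simp) hne
    rcases lt_or_gt_of_ne (sadj_nz hs) with h1 | h1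
    · exact key x y hxy h1
    · exact key y x (by rw [hxy, Finset.pair_comm]) h1
  · rintro ⟨t, rfl⟩
    refine Finset.card_pair fun h => ?_
    have h1 := (e2_spec Y t).1
    rw [h] at h1
    exact lt_irrefl _ h1

theorem i3_rng (c : Cel sadj Y.χ) : c.1.1.card = 3 ↔ ∃ t, i3 Y t = c := by
  constructor
  · intro h
    have h1 : c.1.1.image nz = Finset.range 3 := by
      refine Finset.eq_of_subset_of_card_le (fun n hn => ?_) ?_
      · obtain ⟨x, _, rfl⟩ := Finset.mem_image.1 hn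
        exact Finset.mem_range.2 (nz_le x)
      · rw [Finset.card_image_of_injOn (nz_inj c.2.1), h, Finset.card_range]
    have h2 : ∀ n, n < 3 → ∃ x ∈ c.1.1, nz x = n := fun n hn => by
      have h3 : n ∈ c.1.1.image nz := by rw [h1]; exact Finset.mem_range.2 hn
      exact Finset.mem_image.1 h3
    obtain ⟨x, hx, nx⟩ := h2 0 (by norm_num)
    obtain ⟨y, hy, ny⟩ := h2 1 (by norm_num)
    obtain ⟨z, hz, nz'⟩ := h2 2 (by norm_num)
    have hxy : x ≠ y := fun h => by rw [h] at nx; omega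
    have hyz : y ≠ z := fun h => by rw [h] at ny; omega
    have hxz : x ≠ z := fun h => by rw [h] at nx; omega
    have h3 : ({x, y, z} : Finset SV) = c.1.1 := by
      refine Finset.eq_of_subset_of_card_le (fun u hu => ?_) ?_
      · simp only [Finset.mem_insert, Finset.mem_singleton] at hu
        rcases hu with rfl | rfl | rfl <;> assumption
      · rw [h, Finset.card_eq_three.2 ⟨x, y, z, hxy, hxz, hyz, rfl⟩]
    exact ⟨⟨((x, y, z), c.1.2), ⟨nx, ny, nz', c.2.1 x hx y hy hxy, c.2.1 y hy z hz hyz,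
      c.2.1 x hx z hz hxz⟩, c.2.2 x hx, c.2.2 y hy, c.2.2 z hz⟩, Subtype.ext (Prod.ext h3 rfl)⟩
  · rintro ⟨t, rfl⟩
    obtain ⟨⟨n1, n2, n3, _⟩, _⟩ := t.2
    refine Finset.card_eq_three.2 ⟨t.1.1.1, t.1.1.2.1, t.1.1.2.2, fun h => ?_, fun h => ?_,
      fun h => ?_, rfl⟩
    · rw [h] at n1; omega
    · rw [h] at n1; omega
    · rw [h] at n2; omega

/-! ### entries -/

/-- integer version of `df` -/
def dfi (v : SV) (y y' : Y.X) : ℤ := (if y' = y then 1 else 0) - (if y' = Y.ρ v y then 1 else 0)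

theorem dfi_cast (v : SV) (y y' : Y.X) : ((dfi Y v y y' : ℤ) : ℝ) = df Y v y y' := by
  unfold dfi df
  push_cast
  rfl

variable {o : SV → ℕ}

theorem sg_none {v : SV} {τ : Finset SV} (h : ∀ u ∈ τ, ¬ o u < o v) : sg o v τ = 1 := by
  unfold sg
  rw [Finset.filter_eq_empty_iff.2 fun u hu => h u hu]
  simp

theorem sg_all {v : SV} {τ : Finset SV} (h : ∀ u ∈ τ, o u < o v) :
    sg o v τ = (-1) ^ τ.card := by
  unfold sg
  rw [Finset.filter_true_of_mem h]

theorem d10 (q : C1a Y ⊕ C1b Y) (y : Y.X) :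
    ((Dm o Y.ρ (i1 Y q).1 (i0 Y y).1 : ℤ) : ℝ) = D1 Y q y := by
  have h : Dm o Y.ρ (i1 Y q).1 (i0 Y y).1 = dfi Y (e1 Y q).1 (e1 Y q).2 y := by
    show ∑ v ∈ ({(e1 Y q).1} : Finset SV), _ = _
    rw [Finset.sum_singleton]
    show (if (∅ : Finset SV) = ({(e1 Y q).1} : Finset SV).erase (e1 Y q).1 then
      sg o (e1 Y q).1 (({(e1 Y q).1} : Finset SV).erase (e1 Y q).1) *
        ((if y = (e1 Y q).2 then 1 else 0) - (if y = Y.ρ (e1 Y q).1 (e1 Y q).2 then 1 else 0))
        else 0) = _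
    rw [Finset.erase_singleton, if_pos rfl, sg_none (fun u hu => absurd hu (Finset.notMem_empty u)),
      one_mul]
    rfl
  rw [h, dfi_cast]
  rfl

theorem d21 (ho : ∀ u v, nz u < nz v → o u < o v) (p : C2a Y ⊕ C2b Y) (q : C1a Y ⊕ C1b Y) :
    ((Dm o Y.ρ (i2 Y p).1 (i1 Y q).1 : ℤ) : ℝ) = D2 Y p q := by
  obtain ⟨hlt, -, -, -⟩ := e2_spec Y p
  have h : Dm o Y.ρ (i2 Y p).1 (i1 Y q).1 =
      (if (e1 Y q).1 = (e2 Y p).1.2 then dfi Y (e2 Y p).1.1 (e2 Y p).2 (e1 Y q).2 else 0) -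
      (if (e1 Y q).1 = (e2 Y p).1.1 then dfi Y (e2 Y p).1.2 (e2 Y p).2 (e1 Y q).2 else 0) := by
    show ∑ v ∈ ({(e2 Y p).1.1, (e2 Y p).1.2} : Finset SV),
      (if ({(e1 Y q).1} : Finset SV) = ({(e2 Y p).1.1, (e2 Y p).1.2} : Finset SV).erase v then
        sg o v (({(e2 Y p).1.1, (e2 Y p).1.2} : Finset SV).erase v) *
          dfi Y v (e2 Y p).2 (e1 Y q).2 else 0) = _
    generalize (e2 Y p).1.1 = a at *
    generalize (e2 Y p).1.2 = b at *
    generalize (e1 Y q).1 = u
    generalize (e2 Y p).2 = y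
    generalize (e1 Y q).2 = y'
    have hab : a ≠ b := fun h => by rw [h] at hlt; exact lt_irrefl _ hlt
    have ea : ({a, b} : Finset SV).erase a = {b} := Finset.erase_insert (by simpa using hab)
    have eb : ({a, b} : Finset SV).erase b = {a} := by
      rw [Finset.pair_comm]
      exact Finset.erase_insert (by simpa using hab.symm)
    have oab := ho a b hlt
    rw [Finset.sum_pair hab, ea, eb, if_congr Finset.singleton_inj rfl rfl,
      if_congr (Finset.singleton_inj (a := u) (b := a)) rfl rfl,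
      sg_none (τ := {b}) (fun u hu => by rw [Finset.mem_singleton.1 hu]; omega),
      sg_all (τ := {a}) (fun u hu => by rw [Finset.mem_singleton.1 hu]; exact oab),
      Finset.card_singleton]
    split_ifs <;> ring
  rw [h]
  push_cast
  rw [dfi_cast, dfi_cast]
  rfl

theorem d32 (ho : ∀ u v, nz u < nz v → o u < o v) (p : C3 Y) (q : C2a Y ⊕ C2b Y) :
    ((Dm o Y.ρ (i3 Y p).1 (i2 Y q).1 : ℤ) : ℝ) = D3 Y p q := by
  have hq := (e2_spec Y q).1
  obtain ⟨⟨⟨a, b, c⟩, y⟩, hp⟩ := p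
  have n1 : nz a = 0 := hp.1.1
  have n2 : nz b = 1 := hp.1.2.1
  have n3 : nz c = 2 := hp.1.2.2.1
  have h : Dm o Y.ρ ({a, b, c}, y) (i2 Y q).1 =
      (if (e2 Y q).1.1 = b ∧ (e2 Y q).1.2 = c then dfi Y a y (e2 Y q).2 else 0) -
      (if (e2 Y q).1.1 = a ∧ (e2 Y q).1.2 = c then dfi Y b y (e2 Y q).2 else 0) +
      (if (e2 Y q).1.1 = a ∧ (e2 Y q).1.2 = b then dfi Y c y (e2 Y q).2 else 0) := by
    show ∑ v ∈ ({a, b, c} : Finset SV),
      (if ({(e2 Y q).1.1, (e2 Y q).1.2} : Finset SV) = ({a, b, c} : Finset SV).erase v then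
        sg o v (({a, b, c} : Finset SV).erase v) * dfi Y v y (e2 Y q).2 else 0) = _
    generalize (e2 Y q).1.1 = s at *
    generalize (e2 Y q).1.2 = t at *
    generalize (e2 Y q).2 = y'
    have hab : a ≠ b := fun h => by rw [h] at n1; omega
    have hac : a ≠ c := fun h => by rw [h] at n1; omega
    have hbc : b ≠ c := fun h => by rw [h] at n2; omega
    have ea : ({a, b, c} : Finset SV).erase a = {b, c} :=
      Finset.erase_insert (by simp [hab, hac])
    have eb : ({a, b, c} : Finset SV).erase b = {a, c} := by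
      rw [Finset.insert_comm]
      exact Finset.erase_insert (by simp [hab.symm, hbc])
    have ec : ({a, b, c} : Finset SV).erase c = {a, b} := by
      have : ({a, b, c} : Finset SV) = {c, a, b} := by
        ext u
        simp only [Finset.mem_insert, Finset.mem_singleton]
        tauto
      rw [this]
      exact Finset.erase_insert (by simp [hac.symm, hbc.symm])
    have oab := ho a b (by omega)
    have oac := ho a c (by omega)
    have obc := ho b c (by omega)
    have sa : sg o a {b, c} = 1 := sg_none fun u hu => by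
      simp only [Finset.mem_insert, Finset.mem_singleton] at hu
      rcases hu with rfl | rfl <;> omega
    have sc : sg o c {a, b} = 1 := by
      rw [sg_all (τ := {a, b}) (fun u hu => by
        simp only [Finset.mem_insert, Finset.mem_singleton] at hu
        rcases hu with rfl | rfl <;> assumption), Finset.card_pair hab]
      norm_num
    have sb : sg o b {a, c} = -1 := by
      unfold sg
      have : ({a, c} : Finset SV).filter (fun u => o u < o b) = {a} := by
        ext u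
        simp only [Finset.mem_filter, Finset.mem_insert, Finset.mem_singleton]
        constructor
        · rintro ⟨rfl | rfl, h⟩
          · rfl
          · omega
        · rintro rfl
          exact ⟨Or.inl rfl, oab⟩
      rw [this, Finset.card_singleton]
      norm_num
    rw [Finset.sum_insert (by simp [hab, hac]), Finset.sum_pair hbc, ea, eb, ec, sa, sb, sc,
      if_congr (pair_eq hq (show nz b < nz c by omega)) rfl rfl,
      if_congr (pair_eq hq (show nz a < nz c by omega)) rfl rfl,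
      if_congr (pair_eq hq (show nz a < nz b by omega)) rfl rfl]
    split_ifs <;> ring
  have h' : Dm o Y.ρ (i3 Y ⟨((a, b, c), y), hp⟩).1 (i2 Y q).1 =
    Dm o Y.ρ ({a, b, c}, y) (i2 Y q).1 := rfl
  rw [h', h]
  push_cast
  rw [dfi_cast, dfi_cast, dfi_cast]
  rfl

end Pool.LU.FK.Brg
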