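import Pool.Agent.H97.LUY.Cov
import Pool.Agent.H97.LUY.Lap

/-!
Project LU, part Y, module BRG: the Laplacians of the covers of the cubical complex.
-/

set_option autoImplicit false
set_option linter.unusedVariables false
set_option linter.unusedSectionVars false

open scoped BigOperators Topology
open Filter Pool.H3.L2 Pool.H29.L2

noncomputable section

namespace Pool.LU.FK

open Brg RE

/-- a basis of the part of degree `k` from a bijection with the cells -/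
def brgBas (Y : YSet) (B : BCx ℤ) (E : B.S ≃ Cel sadj Y.χ)
    (hE : ∀ s, B.deg s = (E s).1.1.card) {k : ℕ} {T : Type} (i : T → Cel sadj Y.χ)
    (hi : Function.Injective i) (hr : ∀ c : Cel sadj Y.χ, c.1.1.card = k ↔ ∃ t, i t = c) :
    Bas B k T where
  g t := E.symm (i t)
  inj := E.symm.injective.comp hi
  rng s := by
    rw [hE, hr]
    exact exists_congr fun t => ⟨fun h => by rw [h, E.symm_apply_apply],
      fun h => by rw [← h, E.apply_symm_apply]⟩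

/-- the conclusion from a signed bijection of the cells -/
theorem brgFin (Y : YSet) (B : BCx ℤ) (E : B.S ≃ Cel sadj Y.χ) (o : SV → ℕ)
    (hnz : ∀ u v, nz u < nz v → o u < o v)
    (hE : ∀ s, B.deg s = (E s).1.1.card) (τ : B.S → ℤˣ)
    (hD : ∀ s t, B.D s t = (τ s : ℤ) * (τ t : ℤ) * Dm o Y.ρ (E s).1 (E t).1) :
    (∃ (e : {u : B.S // B.deg u = 0} ≃ Y.X) (σ : Y.X → ℤˣ), ∀ s t,
      ((lapZk B 0 s t : ℤ) : ℝ) = (σ (e s) : ℤ) * (σ (e t) : ℤ) * Lap0 Y (e s) (e t)) ∧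
    (∃ (e : {u : B.S // B.deg u = 1} ≃ C1a Y ⊕ C1b Y)
      (σ : C1a Y ⊕ C1b Y → ℤˣ), ∀ s t,
      ((lapZk B 1 s t : ℤ) : ℝ) = (σ (e s) : ℤ) * (σ (e t) : ℤ) * Lap1 Y (e s) (e t)) ∧
    (∃ (e : {u : B.S // B.deg u = 3} ≃ C3 Y) (σ : C3 Y → ℤˣ), ∀ s t,
      ((lapZk B 3 s t : ℤ) : ℝ) = (σ (e s) : ℤ) * (σ (e t) : ℤ) * Lap3 Y (e s) (e t)) := by
  let b0 := brgBas Y B E hE (i0 Y) (i0_inj Y) (i0_rng Y)
  let b1 := brgBas Y B E hE (i1 Y) (i1_inj Y) (i1_rng Y)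
  let b2 := brgBas Y B E hE (i2 Y) (i2_inj Y) (i2_rng Y)
  let b3 := brgBas Y B E hE (i3 Y) (i3_inj Y) (i3_rng Y)
  have m1 : ∀ x y, ((B.D (b1.g x) (b0.g y) : ℤ) : ℝ) =
      ((τ (b1.g x) : ℤ) : ℝ) * ((τ (b0.g y) : ℤ) : ℝ) * D1 Y x y := fun x y => by
    rw [hD]
    show (((τ (b1.g x) : ℤ) * (τ (b0.g y) : ℤ) *
      Dm o Y.ρ (E (E.symm (i1 Y x))).1 (E (E.symm (i0 Y y))).1 : ℤ) : ℝ) = _
    rw [E.apply_symm_apply, E.apply_symm_apply]
    push_cast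
    rw [d10]
  have m2 : ∀ x y, ((B.D (b2.g x) (b1.g y) : ℤ) : ℝ) =
      ((τ (b2.g x) : ℤ) : ℝ) * ((τ (b1.g y) : ℤ) : ℝ) * D2 Y x y := fun x y => by
    rw [hD]
    show (((τ (b2.g x) : ℤ) * (τ (b1.g y) : ℤ) *
      Dm o Y.ρ (E (E.symm (i2 Y x))).1 (E (E.symm (i1 Y y))).1 : ℤ) : ℝ) = _
    rw [E.apply_symm_apply, E.apply_symm_apply]
    push_cast
    rw [d21 Y hnz]
  have m3 : ∀ x y, ((B.D (b3.g x) (b2.g y) : ℤ) : ℝ) =
      ((τ (b3.g x) : ℤ) : ℝ) * ((τ (b2.g y) : ℤ) : ℝ) * D3 Y x y := fun x y => by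
    rw [hD]
    show (((τ (b3.g x) : ℤ) * (τ (b2.g y) : ℤ) *
      Dm o Y.ρ (E (E.symm (i3 Y x))).1 (E (E.symm (i2 Y y))).1 : ℤ) : ℝ) = _
    rw [E.apply_symm_apply, E.apply_symm_apply]
    push_cast
    rw [d32 Y hnz]
  refine ⟨⟨b0.E, fun y => τ (b0.g y), fun s t => ?_⟩, ⟨b1.E, fun y => τ (b1.g y), fun s t => ?_⟩,
    ⟨b3.E, fun y => τ (b3.g y), fun s t => ?_⟩⟩
  · rw [lap_cast]
    have z : ∑ j, ((B.D s.1 j : ℤ) : ℝ) * ((B.D t.1 j : ℤ) : ℝ) = 0 :=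
      Finset.sum_eq_zero fun j _ => by
        have h0 : B.D s.1 j = 0 := by
          by_contra h
          have h1 := B.deg_D _ _ h
          rw [s.2] at h1
          omega
        rw [h0, Int.cast_zero, zero_mul]
    rw [z, zero_add, ← b0.gE s, ← b0.gE t, Bas.up b1 b0 τ (D1 Y) m1]
    rfl
  · rw [lap_cast, ← b1.gE s, ← b1.gE t, Bas.down b1 b0 τ (D1 Y) m1,
      Bas.up b2 b1 τ (D2 Y) m2, ← mul_add]
    rfl
  · rw [lap_cast]
    have z : ∑ j, ((B.D j s.1 : ℤ) : ℝ) * ((B.D j t.1 : ℤ) : ℝ) = 0 :=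
      Finset.sum_eq_zero fun j _ => by
        have h0 : B.D j s.1 = 0 := by
          by_contra h
          have h1 := B.deg_D _ _ h
          rw [s.2, hE] at h1
          have h2 := card_le (E j).2.1
          omega
        rw [h0, Int.cast_zero, zero_mul]
    rw [z, add_zero, ← b3.gE s, ← b3.gE t, Bas.down b3 b2 τ (D3 Y) m3]
    rfl

theorem brg : BRGStmt := by
  intro W _ R o ho hnz g hg hD hdeg N _ _ h1 h2 Y φ hφ C
  let φ' : Y.X ≃ (YN R g hg N).Y := φ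
  have hact : ∀ (v : SV) (y : (cosX R (N.map R.χ.ker.subtype) h1 h2).X),
      (cosX R (N.map R.χ.ker.subtype) h1 h2).ρ v y = (YN R g hg N).act y (R.s v) := by
    rintro v ⟨w⟩
    rfl
  have hφ' : ∀ v y, φ' (Y.ρ v y) = (YN R g hg N).act (φ' y) (R.s v) := fun v y =>
    (hφ v y).trans (hact v (φ y))
  have hχ : ∀ u v y, (YN R g hg N).χ (φ' (Y.ρ v y)) u =
      (YN R g hg N).χ (φ' y) u * (Pi.mulSingle v (-1) : SV → ℤˣ) u := fun u v y => by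
    rw [hφ', (YN R g hg N).χ_act, R.χ_s]
    rfl
  have okZ : OK sadj Y.ρ (fun v y => (YN R g hg N).χ (φ' y) v) :=
    ⟨fun v x => by rw [hχ, Pi.mulSingle_eq_same, mul_neg_one],
      fun u v huv x => by rw [hχ, Pi.mulSingle_eq_of_ne huv.1, mul_one]⟩
  have okY : OK sadj Y.ρ Y.χ := ⟨Y.χ_self, Y.χ_adj⟩
  obtain ⟨e, τ, he1, he2⟩ := si_all (o := o) sadj_irrefl Y.ρρ Y.comm okZ okY
  refine brgFin Y (C.cover N) ((ce R g hg N φ').trans e) o hnz ?_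
    (fun s => τ (ce R g hg N φ' s)) ?_
  · intro s
    exact (congrArg Finset.card (he1 (ce R g hg N φ' s))).symm
  · intro s t
    exact (cov_entry R g hg N Y.ρ φ' o hφ' s t).trans (he2 _ _)

end Pool.LU.FK
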