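import Pool.Agent.H87.LUY.Stmts

/-!
Project LU, part Y, module BT0: the Betti number of the covers in degree 0.
-/

set_option autoImplicit false
set_option linter.unusedVariables false
set_option linter.unusedSectionVars false

open scoped BigOperators Topology
open Filter Pool.H3.L2

noncomputable section

namespace Pool.LU.FK

section

variable {G : Type} [Group G]

theorem bt0AugAdd (a b : GR G) : aug (a + b) = aug a + aug b := by
  unfold aug
  rw [MonoidAlgebra.coeff_add]
  exact Finsupp.sum_add_index' (fun _ => rfl) (fun _ _ _ => rfl)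

theorem bt0AugSingle (g : G) (n : ℤ) : aug (MonoidAlgebra.single g n : GR G) = n := by
  unfold aug
  rw [MonoidAlgebra.coeff_single]
  exact Finsupp.sum_single_index rfl

theorem bt0AugSum {ι : Type} (s : Finset ι) (f : ι → GR G) :
    aug (∑ i ∈ s, f i) = ∑ i ∈ s, aug (f i) := by
  classical
  induction s using Finset.induction_on with
  | empty =>
    rw [Finset.sum_empty, Finset.sum_empty]
    unfold aug
    simp
  | insert i s hi ih => rw [Finset.sum_insert hi, Finset.sum_insert hi, bt0AugAdd, ih]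

/-- integral cycles of degree 0 with augmentation zero are boundaries -/
theorem bt0Int (C : BCx (GR G)) (e : C.S → ℤ) (he : ∀ s, C.deg s ≠ 0 → e s = 0)
    (hex : ∀ v : C.S → GR G, Matrix.vecMul v C.D = 0 → ∑ s, aug (v s) * e s = 0 →
      ∃ w : C.S → GR G, Matrix.vecMul w C.D = v)
    {Q : Type} [Group Q] [Fintype Q] (φ : G →* Q) (hφ : Function.Surjective φ)
    (v : C.S × Q → ℤ) (hv : ∀ s, C.deg s.1 ≠ 0 → v s = 0) (hs : ∑ s, v s * e s.1 = 0) :
    ∃ w : C.S × Q → ℤ, (∀ s, C.deg s.1 ≠ 0 + 1 → w s = 0) ∧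
      Matrix.vecMul w (regM φ C.D) = v := by
  classical
  choose l hl using hφ
  let V : C.S → GR G := fun s => ∑ q : Q, MonoidAlgebra.single (l q) (v (s, q))
  have hV0 : ∀ s, C.deg s ≠ 0 → V s = 0 := fun s hs' => by
    refine Finset.sum_eq_zero fun q _ => ?_
    rw [hv (s, q) hs', MonoidAlgebra.single_zero]
  have h1 : Matrix.vecMul V C.D = 0 := by
    funext t
    show ∑ s, V s * C.D s t = 0
    refine Finset.sum_eq_zero fun s _ => ?_
    by_cases h : C.deg s = 0
    · have h0 : C.D s t = 0 := by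
        by_contra h2
        have := C.deg_D s t h2
        omega
      rw [h0, mul_zero]
    · rw [hV0 s h, zero_mul]
  have h2 : ∑ s, aug (V s) * e s = 0 := by
    rw [← hs, Fintype.sum_prod_type]
    refine Finset.sum_congr rfl fun s _ => ?_
    show aug (∑ q : Q, MonoidAlgebra.single (l q) (v (s, q))) * e s = _
    rw [bt0AugSum, Finset.sum_mul]
    refine Finset.sum_congr rfl fun q _ => ?_
    rw [bt0AugSingle]
  obtain ⟨w, hw⟩ := hex V h1 h2
  refine ⟨fun s => if C.deg s.1 = 1 then (MonoidAlgebra.mapDomain φ (w s.1)).coeff s.2 else 0,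
    fun s hs' => if_neg hs', ?_⟩
  funext t
  obtain ⟨t, q'⟩ := t
  have hmul : ∀ s : C.S, ∑ q : Q, (MonoidAlgebra.mapDomain φ (w s)).coeff q *
      (MonoidAlgebra.mapDomain φ (C.D s t)).coeff (q⁻¹ * q') =
      (MonoidAlgebra.mapDomain φ (w s * C.D s t)).coeff q' := by
    intro s
    have h3 : MonoidAlgebra.mapDomain φ (w s * C.D s t) =
        MonoidAlgebra.mapDomain φ (w s) * MonoidAlgebra.mapDomain φ (C.D s t) :=
      map_mul (MonoidAlgebra.mapDomainRingHom ℤ φ) (w s) (C.D s t)
    rw [h3, coeff_mul_fintype]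
  have h4 : Matrix.vecMul (fun s : C.S × Q => if C.deg s.1 = 1 then
      (MonoidAlgebra.mapDomain φ (w s.1)).coeff s.2 else 0) (regM φ C.D) (t, q') =
      ∑ s : C.S, if C.deg s = 1 then (MonoidAlgebra.mapDomain φ (w s * C.D s t)).coeff q' else 0 := by
    show ∑ s : C.S × Q, (if C.deg s.1 = 1 then (MonoidAlgebra.mapDomain φ (w s.1)).coeff s.2
      else 0) * (MonoidAlgebra.mapDomain φ (C.D s.1 t)).coeff (s.2⁻¹ * q') = _
    rw [Fintype.sum_prod_type]
    refine Finset.sum_congr rfl fun s _ => ?_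
    by_cases h : C.deg s = 1
    · simp only [if_pos h]
      exact hmul s
    · simp only [if_neg h, zero_mul, Finset.sum_const_zero]
  rw [h4]
  by_cases ht : C.deg t = 0
  · have h5 : ∀ s : C.S, (if C.deg s = 1 then (MonoidAlgebra.mapDomain φ (w s * C.D s t)).coeff q'
        else 0) = (MonoidAlgebra.mapDomain φ (w s * C.D s t)).coeff q' := by
      intro s
      by_cases h : C.deg s = 1
      · rw [if_pos h]
      · have h0 : C.D s t = 0 := by
          by_contra h2
          have := C.deg_D s t h2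
          omega
        rw [if_neg h, h0, mul_zero]
        simp
    rw [Finset.sum_congr rfl fun s _ => h5 s]
    have h6 : ∑ s : C.S, (MonoidAlgebra.mapDomain φ (w s * C.D s t)).coeff q' =
        (MonoidAlgebra.mapDomain φ (V t)).coeff q' := by
      have h7 : V t = ∑ s, w s * C.D s t := (congrFun hw t).symm
      have h8 : MonoidAlgebra.mapDomain φ (∑ s, w s * C.D s t) =
          ∑ s, MonoidAlgebra.mapDomain φ (w s * C.D s t) :=
        map_sum (MonoidAlgebra.mapDomainRingHom ℤ φ) (fun s => w s * C.D s t) Finset.univ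
      rw [h7, h8, MonoidAlgebra.coeff_sum, Finsupp.finsetSum_apply]
    rw [h6]
    have h9 : MonoidAlgebra.mapDomain φ (V t) =
        ∑ q : Q, MonoidAlgebra.single q (v (t, q)) := by
      have h10 : MonoidAlgebra.mapDomain φ (V t) =
          ∑ q : Q, MonoidAlgebra.mapDomain φ (MonoidAlgebra.single (l q) (v (t, q))) :=
        map_sum (MonoidAlgebra.mapDomainRingHom ℤ φ)
          (fun q : Q => MonoidAlgebra.single (l q) (v (t, q))) Finset.univ
      rw [h10]
      refine Finset.sum_congr rfl fun q _ => ?_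
      rw [MonoidAlgebra.mapDomain_single, hl]
    rw [h9, MonoidAlgebra.coeff_sum, Finsupp.finsetSum_apply, Finset.sum_eq_single q']
    · rw [MonoidAlgebra.coeff_single, Finsupp.single_eq_same]
    · intro q _ hq
      rw [MonoidAlgebra.coeff_single, Finsupp.single_apply, if_neg hq]
    · intro h
      exact absurd (Finset.mem_univ _) h
  · rw [hv (t, q') ht]
    refine Finset.sum_eq_zero fun s _ => ?_
    by_cases h : C.deg s = 1
    · have h0 : C.D s t = 0 := by
        by_contra h2
        have := C.deg_D s t h2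
        omega
      rw [if_pos h, h0, mul_zero]
      simp
    · rw [if_neg h]

theorem bt0Quot (C : BCx (GR G)) (hC : C.IsRes)
    {Q : Type} [Group Q] [Fintype Q] [DecidableEq Q] (φ : G →* Q) (hφ : Function.Surjective φ) :
    (C.quot φ).betti ℝ 0 ≤ 1 := by
  classical
  obtain ⟨e, he, -, ⟨v1, hv1⟩, hex⟩ := hC
  let B : BCx ℝ := (C.quot φ).map (Int.castRingHom ℝ)
  -- an integral chain with augmentation one
  obtain ⟨x0, hx0, hx1⟩ : ∃ x0 : C.S × Q → ℤ, (∀ s, C.deg s.1 ≠ 0 → x0 s = 0) ∧
      ∑ s, x0 s * e s.1 = 1 := by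
    refine ⟨fun s => if C.deg s.1 = 0 then (if s.2 = 1 then aug (v1 s.1) else 0) else 0,
      fun s hs => if_neg hs, ?_⟩
    rw [← hv1, Fintype.sum_prod_type]
    refine Finset.sum_congr rfl fun s _ => ?_
    by_cases h : C.deg s = 0
    · simp only [if_pos h]
      rw [Finset.sum_eq_single (1 : Q)]
      · rw [if_pos rfl]
      · intro q _ hq
        rw [if_neg hq, zero_mul]
      · intro h'
        exact absurd (Finset.mem_univ _) h'
    · simp only [if_neg h, zero_mul, Finset.sum_const_zero]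
      rw [he s h, mul_zero]
  have hB : ∀ v : C.S × Q → ℤ, (∀ s, C.deg s.1 ≠ 0 → v s = 0) → ∑ s, v s * e s.1 = 0 →
      (fun s => ((v s : ℤ) : ℝ)) ∈ B.Bk 0 := by
    intro v hv hs
    obtain ⟨w, hw, hwv⟩ := bt0Int C e he hex φ hφ v hv hs
    refine ⟨fun s => ((w s : ℤ) : ℝ), fun s hs' => ?_, ?_⟩
    · show ((w s : ℤ) : ℝ) = 0
      rw [hw s hs', Int.cast_zero]
    · funext t
      have h1 := congrFun hwv t
      rw [← h1]
      show ∑ s : C.S × Q, ((w s : ℤ) : ℝ) * ((regM φ C.D s t : ℤ) : ℝ) =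
        (((∑ s : C.S × Q, w s * regM φ C.D s t : ℤ)) : ℝ)
      push_cast
      rfl
  have hZ0 : ∀ v : C.S × Q → ℝ, (∀ s, C.deg s.1 ≠ 0 → v s = 0) → v ∈ B.Zk 0 := by
    intro v hv
    refine ⟨hv, ?_⟩
    funext t
    show ∑ s : C.S × Q, v s * ((regM φ C.D s t : ℤ) : ℝ) = 0
    refine Finset.sum_eq_zero fun s _ => ?_
    by_cases h : C.deg s.1 = 0
    · have h0 : regM φ C.D s t = 0 := by
        by_contra h2
        have := (C.quot φ).deg_D s t h2
        have h3 : C.deg s.1 = C.deg t.1 + 1 := this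
        omega
      rw [h0, Int.cast_zero, mul_zero]
    · rw [hv s h, zero_mul]
  have key : ∀ v : C.S × Q → ℝ, (∀ s, C.deg s.1 ≠ 0 → v s = 0) →
      v - (∑ s, v s * e s.1) • (fun s => ((x0 s : ℤ) : ℝ)) ∈ B.Bk 0 := by
    intro v hv
    have h1 : v - (∑ s, v s * e s.1) • (fun s => ((x0 s : ℤ) : ℝ)) =
        ∑ s, v s • (fun t => (((if t = s then 1 else 0) - e s.1 * x0 t : ℤ) : ℝ)) := by
      funext t
      rw [Finset.sum_apply]
      simp only [Pi.sub_apply, Pi.smul_apply, smul_eq_mul]
      push_cast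
      simp only [mul_sub, Finset.sum_sub_distrib, mul_ite, mul_one, mul_zero,
        Finset.sum_ite_eq, Finset.mem_univ, if_true]
      rw [Finset.sum_mul]
      congr 1
      exact Finset.sum_congr rfl fun s _ => by ring
    rw [h1]
    refine Submodule.sum_mem _ fun s _ => ?_
    by_cases h : C.deg s.1 = 0
    · refine Submodule.smul_mem _ _ (hB _ (fun t ht => ?_) ?_)
      · have hts : t ≠ s := fun h' => ht (by rw [h', h])
        rw [if_neg hts, hx0 t ht, mul_zero, sub_zero]
      · simp only [sub_mul, Finset.sum_sub_distrib, ite_mul, one_mul, zero_mul,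
          Finset.sum_ite_eq', Finset.mem_univ, if_true]
        have h2 : ∑ t, e s.1 * x0 t * e t.1 = e s.1 * ∑ t, x0 t * e t.1 := by
          rw [Finset.mul_sum]
          exact Finset.sum_congr rfl fun t _ => by ring
        rw [h2, hx1]
        ring
    · rw [hv s h, zero_smul]
      exact Submodule.zero_mem _
  show Module.finrank ℝ (↥(B.Zk 0) ⧸ (B.Bk 0).submoduleOf (B.Zk 0)) ≤ 1
  have hx0Z : (fun s => ((x0 s : ℤ) : ℝ)) ∈ B.Zk 0 := hZ0 _ fun s hs => by
    rw [hx0 s hs, Int.cast_zero]
  refine finrank_le_one (Submodule.Quotient.mk ⟨_, hx0Z⟩) fun z => ?_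
  obtain ⟨⟨z, hz⟩, rfl⟩ := Submodule.Quotient.mk_surjective _ z
  refine ⟨∑ s : C.S × Q, z s * e s.1, ?_⟩
  rw [← Submodule.Quotient.mk_smul, eq_comm, Submodule.Quotient.eq]
  exact key z hz.1

theorem bt0 : BT0Stmt := by
  intro G _ C hC N _ _
  let _ : Fintype (G ⧸ N) := Fintype.ofFinite _
  let _ : DecidableEq (G ⧸ N) := Classical.decEq _
  exact bt0Quot C hC (QuotientGroup.mk' N) (QuotientGroup.mk'_surjective N)

end

end Pool.LU.FK
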