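import Pool.Agent.H87.LUY.Stmts
import Pool.Agent.H29.L2.Cover

/-!
Project LU, part Y, module SPL: convergence of the normalised logarithms of determinants.
-/

set_option autoImplicit false
set_option linter.unusedVariables false
set_option linter.unusedSectionVars false
set_option linter.style.haveILetI false

open scoped BigOperators Topology ENNReal
open Filter MeasureTheory Pool.H3.L2 Pool.H29.L2 Pool.H29.Mom

noncomputable section

namespace Pool.LU.FK

section Herm

variable {ι : Type} [Fintype ι] [DecidableEq ι] {A : Matrix ι ι ℝ}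

theorem splDet (hA : A.IsHermitian) (d : ι → ℝ) :
    (Unitary.conjStarAlgAut ℝ _ hA.eigenvectorUnitary (Matrix.diagonal d)).det = ∏ i, d i := by
  rw [Unitary.conjStarAlgAut_apply, Matrix.det_mul, Matrix.det_mul, mul_right_comm,
    ← Matrix.det_mul]
  have h2 : (hA.eigenvectorUnitary : Matrix ι ι ℝ) * Star.star (hA.eigenvectorUnitary : Matrix ι ι ℝ) = 1 :=
    Unitary.coe_mul_star_self _
  rw [h2, Matrix.det_one, one_mul, Matrix.det_diagonal]

theorem splA (hA : A.IsHermitian) : A = Unitary.conjStarAlgAut ℝ _ hA.eigenvectorUnitary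
    (Matrix.diagonal (fun i => hA.eigenvalues i)) := by
  conv_lhs => rw [hA.spectral_theorem]
  congr 1

theorem splOne (ε : ℝ) : ε • (1 : Matrix ι ι ℝ) = Matrix.diagonal fun _ => ε := by
  ext i j
  rw [Matrix.smul_apply, Matrix.one_apply, Matrix.diagonal_apply]
  split_ifs <;> simp

theorem splAdd (hA : A.IsHermitian) (ε : ℝ) :
    (A + ε • (1 : Matrix ι ι ℝ)).det = ∏ i, (hA.eigenvalues i + ε) := by
  have h1 : A + ε • (1 : Matrix ι ι ℝ) = Unitary.conjStarAlgAut ℝ _ hA.eigenvectorUnitary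
      (Matrix.diagonal fun i => hA.eigenvalues i + ε) := by
    have h2 : (Matrix.diagonal fun i => hA.eigenvalues i + ε) =
        Matrix.diagonal (fun i => hA.eigenvalues i) + ε • (1 : Matrix ι ι ℝ) := by
      rw [splOne, Matrix.diagonal_add]
    rw [h2, map_add, map_smul, map_one, ← splA hA]
  rw [h1, splDet]

theorem splSq (hA : A.IsHermitian) (ε : ℝ) :
    (A ^ 2 + ε • (1 : Matrix ι ι ℝ)).det = ∏ i, (hA.eigenvalues i ^ 2 + ε) := by
  have h1 : A ^ 2 + ε • (1 : Matrix ι ι ℝ) = Unitary.conjStarAlgAut ℝ _ hA.eigenvectorUnitary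
      (Matrix.diagonal fun i => hA.eigenvalues i ^ 2 + ε) := by
    have h2 : (Matrix.diagonal fun i => hA.eigenvalues i ^ 2 + ε) =
        Matrix.diagonal (fun i => hA.eigenvalues i) ^ 2 + ε • (1 : Matrix ι ι ℝ) := by
      rw [splOne, Matrix.diagonal_pow, Matrix.diagonal_add]
      rfl
    rw [h2, map_add, map_smul, map_one, map_pow, ← splA hA]
  rw [h1, splDet]

end Herm

/-- the normalised spectral measure, with integrals of all measurable functions -/
theorem splMeas {ι : Type} [Fintype ι] [DecidableEq ι] (L : Matrix ι ι ℤ)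
    (hL : (L.map (Int.cast : ℤ → ℝ)).PosSemidef) {R : ℝ}
    (hR : ∀ s, ∑ t, |((L s t : ℤ) : ℝ)| ≤ R) {c : ℝ} (hc : 0 ≤ c) :
    ∃ μ : Measure ℝ, On R μ ∧ (∀ n : ℕ, ∫ x, x ^ n ∂μ = c * (((L ^ n).trace : ℤ) : ℝ)) ∧
      ∀ f : ℝ → ℝ, Measurable f → ∫ x, f x ∂μ = c * ∑ i, f (hL.1.eigenvalues i) := by
  classical
  set A := L.map (Int.cast : ℤ → ℝ) with hA
  set lam := hL.1.eigenvalues with hlam
  have hint : ∀ f : ℝ → ℝ, Measurable f → Integrable f (∑ i, Measure.dirac (lam i)) ∧
      ∫ x, f x ∂(∑ i, Measure.dirac (lam i)) = ∑ i, f (lam i) := by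
    intro f hf
    have h1 : ∀ i ∈ (Finset.univ : Finset ι), Integrable f (Measure.dirac (lam i)) := fun i _ =>
      integrable_dirac (by simp)
    refine ⟨(integrable_finsetSum_measure).2 h1, ?_⟩
    rw [integral_finsetSum_measure h1]
    exact Finset.sum_congr rfl fun i _ => integral_dirac _ _
  have hlamR : ∀ i, lam i ∈ Set.Icc 0 R := fun i =>
    ⟨hL.eigenvalues_nonneg i, eigenvalues_le hL.1 (by simpa [hA] using hR) i⟩
  have hon : On R (∑ i, Measure.dirac (lam i)) := by
    refine On.sum _ fun i _ => ⟨inferInstance, ?_⟩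
    rw [Measure.dirac_apply' _ measurableSet_Icc.compl]
    simp [hlamR i]
  have hf : ∀ f : ℝ → ℝ, Measurable f →
      ∫ x, f x ∂(ENNReal.ofReal c • ∑ i, Measure.dirac (lam i)) = c * ∑ i, f (lam i) := by
    intro f hf
    rw [integral_smul_measure, (hint f hf).2, ENNReal.toReal_ofReal hc, smul_eq_mul]
  refine ⟨ENNReal.ofReal c • ∑ i, Measure.dirac (lam i), hon.smul ENNReal.ofReal_ne_top, ?_, hf⟩
  intro n
  rw [hf (fun x => x ^ n) (by fun_prop)]
  congr 1
  have h2 := trace_pow_eq hL.1 n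
  rw [← hlam] at h2
  rw [← h2]
  have h1 : A ^ n = (L ^ n).map (Int.cast : ℤ → ℝ) := by
    have := map_pow (Int.castRingHom ℝ).mapMatrix L n
    rw [hA]
    exact this.symm
  rw [h1]
  simp [Matrix.trace]

/-- the spectral measure of a finite cover -/
theorem splCover {G : Type} [Group G] (C : BCx (GR G)) (k : ℕ) {R : ℝ}
    (hR : ∀ (Q : Type) [Group Q] [Fintype Q] (φ : G →* Q)
      (u : C.S × Q), ∑ v : C.S × Q, |((regM φ C.Lap u v : ℤ) : ℝ)| ≤ R)
    (N : Subgroup G) [N.Normal] [N.FiniteIndex] :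
    ∃ μ : Measure ℝ, On R μ ∧
      (∀ n, ∫ x, x ^ n ∂μ = ((∑ s : C.S, if C.deg s = k then
        (MonoidAlgebra.mapDomain (QuotientGroup.mk' N) ((C.Lap ^ n) s s)).coeff 1 else 0 : ℤ) : ℝ)) ∧
      ∀ f : ℝ → ℝ, Measurable f → ∫ x, f x ∂μ =
        (∑ i, f ((lapZk_psd (C.cover N) k).1.eigenvalues i)) / (N.index : ℝ) := by
  letI : Fintype (G ⧸ N) := Fintype.ofFinite _
  letI : DecidableEq (G ⧸ N) := Classical.decEq _
  set φ := QuotientGroup.mk' N with hφ
  have hcard : (Fintype.card (G ⧸ N) : ℝ) ≠ 0 := by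
    exact_mod_cast Fintype.card_ne_zero
  have hidx : (N.index : ℝ) = (Fintype.card (G ⧸ N) : ℝ) := by
    rw [Subgroup.index, Nat.card_eq_fintype_card]
  obtain ⟨μ, h1, h2, h3⟩ := splMeas (lapZk (C.quot φ) k) (lapZk_psd (C.quot φ) k)
    (R := R) (fun u => by
      refine le_trans ?_ (hR (G ⧸ N) φ u.1)
      have h6 : ∑ v : {v : (C.quot φ).S // (C.quot φ).deg v = k},
          |((lapZk (C.quot φ) k u v : ℤ) : ℝ)| =
          ∑ v ∈ Finset.univ.filter (fun v : (C.quot φ).S => (C.quot φ).deg v = k),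
            |((regM φ C.Lap u.1 v : ℤ) : ℝ)| := by
        rw [Finset.sum_subtype (Finset.univ.filter fun v => (C.quot φ).deg v = k)
          (p := fun v => (C.quot φ).deg v = k) (fun x => by simp)]
        refine Finset.sum_congr rfl fun v _ => ?_
        rw [lapZk, Matrix.submatrix_apply, lapZ_quot]
      rw [h6]
      exact Finset.sum_le_sum_of_subset_of_nonneg (Finset.filter_subset _ _)
        fun _ _ _ => abs_nonneg _)
    (c := ((Fintype.card (G ⧸ N) : ℝ))⁻¹) (by positivity)
  refine ⟨μ, h1, fun n => ?_, fun f hf => ?_⟩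
  · rw [h2 n, trace_quot]
    push_cast
    rw [← mul_assoc, inv_mul_cancel₀ hcard, one_mul]
  · rw [h3 f hf, hidx, div_eq_inv_mul]
    rfl

theorem spl : SPLStmt := by
  intro G _ C c k μ hμ ε hε
  obtain ⟨R, hR⟩ := exists_R C
  choose κ h1 h2 h3 using fun i => splCover C k hR (c.N i)
  obtain ⟨R', hR'⟩ := isSpectral_on hμ
  have hon : On (max R R') μ := hR'.mono (le_max_right _ _)
  have hκ : ∀ i, On (max R R') (κ i) := fun i => (h1 i).mono (le_max_left _ _)
  have hm : ∀ n : ℕ, Tendsto (fun i => ∫ x, x ^ n ∂(κ i)) atTop (𝓝 (∫ x, x ^ n ∂μ)) := fun n => by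
    rw [hμ.moment n]
    refine Tendsto.congr' ?_ tendsto_const_nhds
    filter_upwards [eventually_moment C c k n] with i hi
    rw [h2 i n, hi]
  have key : ∀ f : ℝ → ℝ, Continuous f → Tendsto (fun i =>
      (∑ j, f ((lapZk_psd (C.cover (c.N i)) k).1.eigenvalues j)) / ((c.N i).index : ℝ)) atTop
      (𝓝 (∫ x, f x ∂μ)) := fun f hf => by
    refine Tendsto.congr (fun i => h3 i f hf.measurable) ?_
    exact tendsto_integral hκ hon hm hf
  constructor
  · have hf : Continuous fun x : ℝ => Real.log (|x| + ε) := by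
      refine Continuous.log (by fun_prop) fun x => ?_
      have := abs_nonneg x
      positivity
    have e1 : ∫ x, Real.log (x + ε) ∂μ = ∫ x, Real.log (|x| + ε) ∂μ := by
      refine integral_congr_ae (hon.ae.mono fun x hx => ?_)
      show Real.log (x + ε) = Real.log (|x| + ε)
      rw [abs_of_nonneg hx.1]
    rw [e1]
    refine Tendsto.congr (fun i => ?_) (key _ hf)
    have hnn := (lapZk_psd (C.cover (c.N i)) k).eigenvalues_nonneg
    rw [splAdd (lapZk_psd (C.cover (c.N i)) k).1 ε, Real.log_prod fun j _ => by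
      have := hnn j
      positivity]
    congr 1
    refine Finset.sum_congr rfl fun j _ => ?_
    rw [abs_of_nonneg (hnn j)]
  · have hf : Continuous fun x : ℝ => Real.log (x ^ 2 + ε) := by
      refine Continuous.log (by fun_prop) fun x => ?_
      positivity
    refine Tendsto.congr (fun i => ?_) (key _ hf)
    rw [splSq (lapZk_psd (C.cover (c.N i)) k).1 ε, Real.log_prod fun j _ => by positivity]

end Pool.LU.FK
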