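import Pool.Agent.H87.LUY.Stmts

/-!
Project LU, part Y, module BRG, first part: cells of a set with involutions and signs, independence
of the signs up to a signed bijection.
-/

set_option autoImplicit false
set_option linter.unusedVariables false
set_option linter.unusedSectionVars false

open scoped BigOperators Topology
open Filter Pool.H3.L2 Pool.H29.L2

noncomputable section

namespace Pool.LU.FK.Brg

variable {V : Type} [DecidableEq V] {X : Type} [DecidableEq X]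

/-- the conditions for a cell -/
def IsC (adj : V → V → Prop) (χ : V → X → ℤˣ) (p : Finset V × X) : Prop :=
  Clq adj p.1 ∧ ∀ v ∈ p.1, χ v p.2 = 1

/-- cells -/
def Cel (adj : V → V → Prop) (χ : V → X → ℤˣ) : Type := {p : Finset V × X // IsC adj χ p}

/-- the entries of the boundary matrix -/
def Dm (o : V → ℕ) (ρ : V → X → X) (p q : Finset V × X) : ℤ :=
  ∑ v ∈ p.1, if q.1 = p.1.erase v then sg o v (p.1.erase v) *
    ((if q.2 = p.2 then 1 else 0) - (if q.2 = ρ v p.2 then 1 else 0)) else 0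

/-- the conditions for the signs -/
structure OK (adj : V → V → Prop) (ρ : V → X → X) (χ : V → X → ℤˣ) : Prop where
  self : ∀ v x, χ v (ρ v x) = - χ v x
  ad : ∀ u v, adj u v → ∀ x, χ u (ρ v x) = χ u x

/-- existence of a signed bijection -/
def SI (adj : V → V → Prop) (o : V → ℕ) (ρ : V → X → X) (χ χ' : V → X → ℤˣ) : Prop :=
  ∃ (e : Cel adj χ ≃ Cel adj χ') (τ : Cel adj χ → ℤˣ), (∀ p, (e p).1.1 = p.1.1) ∧
    ∀ p q, Dm o ρ p.1 q.1 = (τ p : ℤ) * (τ q : ℤ) * Dm o ρ (e p).1 (e q).1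

section

variable {adj : V → V → Prop} {o : V → ℕ} {ρ : V → X → X}

theorem si_refl (χ : V → X → ℤˣ) : SI adj o ρ χ χ :=
  ⟨Equiv.refl _, fun _ => 1, fun _ => rfl, fun p q => by simp⟩

theorem si_trans {χ χ' χ'' : V → X → ℤˣ} (h : SI adj o ρ χ χ') (h' : SI adj o ρ χ' χ'') :
    SI adj o ρ χ χ'' := by
  obtain ⟨e, τ, h1, h2⟩ := h
  obtain ⟨e', τ', h1', h2'⟩ := h'
  refine ⟨e.trans e', fun p => τ p * τ' (e p), fun p => ?_, fun p q => ?_⟩
  · rw [Equiv.trans_apply, h1', h1]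
  · rw [h2, h2', Equiv.trans_apply, Equiv.trans_apply]
    push_cast
    ring

/-- moving the point of a cell so that the sign number `u` is one -/
def mv (ρ : V → X → X) (χ' : V → X → ℤˣ) (u : V) (p : Finset V × X) : Finset V × X :=
  if u ∈ p.1 ∧ χ' u p.2 = -1 then (p.1, ρ u p.2) else p

theorem mv_fst (χ' : V → X → ℤˣ) (u : V) (p : Finset V × X) : (mv ρ χ' u p).1 = p.1 := by
  unfold mv
  split_ifs <;> rfl

theorem mv_snd (χ' : V → X → ℤˣ) (u : V) (p : Finset V × X) : (mv ρ χ' u p).2 =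
    if u ∈ p.1 ∧ χ' u p.2 = -1 then ρ u p.2 else p.2 := by
  unfold mv
  split_ifs <;> rfl

theorem neg_one_ne_one : (-1 : ℤˣ) ≠ 1 := by decide

theorem mv_mem {χ χ' : V → X → ℤˣ} (hs : ∀ v, ¬ adj v v) (h : OK adj ρ χ) (h' : OK adj ρ χ')
    (u : V) (hu : ∀ v, v ≠ u → χ' v = χ v) {p : Finset V × X} (hp : IsC adj χ p) :
    IsC adj χ' (mv ρ χ' u p) := by
  refine ⟨by rw [mv_fst]; exact hp.1, fun v hv => ?_⟩
  rw [mv_fst] at hv
  rw [mv_snd]
  split_ifs with h1
  · by_cases hvu : v = u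
    · subst hvu
      rw [h'.self, h1.2, neg_neg]
    · rw [h'.ad v u (hp.1 v hv u h1.1 hvu), hu v hvu]
      exact hp.2 v hv
  · by_cases hvu : v = u
    · subst hvu
      rcases Int.units_eq_one_or (χ' v p.2) with h2 | h2
      · exact h2
      · exact absurd ⟨hv, h2⟩ h1
    · rw [hu v hvu]
      exact hp.2 v hv

theorem mv_mv {χ χ' : V → X → ℤˣ} (hρ : ∀ v x, ρ v (ρ v x) = x) (h : OK adj ρ χ)
    (u : V) {p : Finset V × X} (hp : IsC adj χ p) :
    mv ρ χ u (mv ρ χ' u p) = p := by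
  have h0 : ∀ q : Finset V × X, mv ρ χ u q = if u ∈ q.1 ∧ χ u q.2 = -1 then (q.1, ρ u q.2) else q :=
    fun q => rfl
  by_cases h1 : u ∈ p.1 ∧ χ' u p.2 = -1
  · have h2 : mv ρ χ' u p = (p.1, ρ u p.2) := if_pos h1
    rw [h2, h0]
    have h3 : χ u (ρ u p.2) = -1 := by rw [h.self, hp.2 u h1.1]
    rw [if_pos ⟨h1.1, h3⟩]
    simp only
    rw [hρ]
  · have h2 : mv ρ χ' u p = p := if_neg h1
    rw [h2, h0, if_neg]
    rintro ⟨h3, h4⟩
    rw [hp.2 u h3] at h4
    exact neg_one_ne_one h4.symm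

/-- the sign -/
def tau (χ' : V → X → ℤˣ) (u : V) (p : Finset V × X) : ℤˣ := if u ∈ p.1 then χ' u p.2 else 1

theorem dm_mv {χ χ' : V → X → ℤˣ} (hρ : ∀ v x, ρ v (ρ v x) = x)
    (hc : ∀ u v, adj u v → ∀ x, ρ u (ρ v x) = ρ v (ρ u x)) (h : OK adj ρ χ) (h' : OK adj ρ χ')
    (u : V) {p q : Finset V × X} (hp : IsC adj χ p) (hq : IsC adj χ q) :
    Dm o ρ p q = (tau χ' u p : ℤ) * (tau χ' u q : ℤ) *
      Dm o ρ (mv ρ χ' u p) (mv ρ χ' u q) := by
  unfold Dm
  rw [Finset.mul_sum, mv_fst, mv_fst]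
  refine Finset.sum_congr rfl fun v hv => ?_
  by_cases h1 : q.1 = p.1.erase v
  swap
  · rw [if_neg h1, if_neg h1, mul_zero]
  rw [if_pos h1, if_pos h1]
  have key : ((if q.2 = p.2 then (1 : ℤ) else 0) - (if q.2 = ρ v p.2 then 1 else 0)) =
      (tau χ' u p : ℤ) * (tau χ' u q : ℤ) * ((if (mv ρ χ' u q).2 = (mv ρ χ' u p).2 then 1 else 0) -
        (if (mv ρ χ' u q).2 = ρ v (mv ρ χ' u p).2 then 1 else 0)) := by
    have hinj : ∀ a b, ρ u a = ρ u b ↔ a = b := fun a b =>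
      ⟨fun h => by rw [← hρ u a, h, hρ], fun h => by rw [h]⟩
    have ep : ¬ (u ∈ p.1 ∧ χ' u p.2 = -1) → (mv ρ χ' u p).2 = p.2 := fun h2 => by
      rw [mv_snd]; exact if_neg h2
    have eq : ¬ (u ∈ q.1 ∧ χ' u q.2 = -1) → (mv ρ χ' u q).2 = q.2 := fun h2 => by
      rw [mv_snd]; exact if_neg h2
    have ep' : (u ∈ p.1 ∧ χ' u p.2 = -1) → (mv ρ χ' u p).2 = ρ u p.2 := fun h2 => by
      rw [mv_snd]; exact if_pos h2
    have eq' : (u ∈ q.1 ∧ χ' u q.2 = -1) → (mv ρ χ' u q).2 = ρ u q.2 := fun h2 => by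
      rw [mv_snd]; exact if_pos h2
    have tp : u ∈ p.1 → tau χ' u p = χ' u p.2 := fun h2 => if_pos h2
    have tq : u ∈ q.1 → tau χ' u q = χ' u q.2 := fun h2 => if_pos h2
    have tp' : u ∉ p.1 → tau χ' u p = 1 := fun h2 => if_neg h2
    have tq' : u ∉ q.1 → tau χ' u q = 1 := fun h2 => if_neg h2
    have n1 := neg_one_ne_one
    have n2 : (1 : ℤˣ) ≠ -1 := fun h3 => n1 h3.symm
    by_cases hup : u ∈ p.1
    swap
    · have huq : u ∉ q.1 := by
        rw [h1]
        exact fun h2 => hup (Finset.mem_of_mem_erase h2)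
      rw [ep fun h2 => hup h2.1, eq fun h2 => huq h2.1, tp' hup, tq' huq]
      simp
    by_cases hvu : v = u
    · subst hvu
      have huq : v ∉ q.1 := by
        rw [h1]
        exact Finset.notMem_erase _ _
      rw [eq fun h2 => huq h2.1, tp hup, tq' huq]
      rcases Int.units_eq_one_or (χ' v p.2) with h2 | h2
      · rw [ep (fun h3 => n1 (by rw [← h3.2, h2])), h2]
        simp
      · rw [ep' ⟨hup, h2⟩, h2, hρ]
        simp
    · have huq : u ∈ q.1 := by
        rw [h1]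
        exact Finset.mem_erase.2 ⟨fun h2 => hvu h2.symm, hup⟩
      have huv : adj u v := hp.1 u hup v hv (fun h2 => hvu h2.symm)
      have hp1 := hp.2 u hup
      have hq1 := hq.2 u huq
      rw [tp hup, tq huq]
      have c1 : ∀ x, χ u (ρ v x) = χ u x := h.ad u v huv
      have c1' : ∀ x, χ' u (ρ v x) = χ' u x := h'.ad u v huv
      have c2 : ∀ x, χ u (ρ u x) = - χ u x := h.self u
      have hz : ∀ {a b : X}, χ u a ≠ χ u b → (if a = b then (1 : ℤ) else 0) = 0 := fun h3 =>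
        if_neg fun h4 => h3 (by rw [h4])
      have hz' : ∀ {a b : X}, χ' u a ≠ χ' u b → (if a = b then (1 : ℤ) else 0) = 0 := fun h3 =>
        if_neg fun h4 => h3 (by rw [h4])
      rcases Int.units_eq_one_or (χ' u p.2) with h2 | h2 <;>
        rcases Int.units_eq_one_or (χ' u q.2) with h3 | h3
      · rw [ep (fun h4 => n1 (by rw [← h4.2, h2])), eq (fun h4 => n1 (by rw [← h4.2, h3])), h2, h3]
        simp
      · rw [ep (fun h4 => n1 (by rw [← h4.2, h2])), eq' ⟨huq, h3⟩]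
        have z1 : χ' u q.2 ≠ χ' u p.2 := by rw [h2, h3]; exact n1
        have z2 : χ' u q.2 ≠ χ' u (ρ v p.2) := by rw [c1', h2, h3]; exact n1
        have z3 : χ u (ρ u q.2) ≠ χ u p.2 := by rw [c2, hp1, hq1]; exact n1
        have z4 : χ u (ρ u q.2) ≠ χ u (ρ v p.2) := by rw [c2, c1, hp1, hq1]; exact n1
        rw [hz' z1, hz' z2, hz z3, hz z4]
        simp
      · rw [ep' ⟨hup, h2⟩, eq (fun h4 => n1 (by rw [← h4.2, h3]))]
        have z1 : χ' u q.2 ≠ χ' u p.2 := by rw [h2, h3]; exact n2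
        have z2 : χ' u q.2 ≠ χ' u (ρ v p.2) := by rw [c1', h2, h3]; exact n2
        have z3 : χ u q.2 ≠ χ u (ρ u p.2) := by rw [c2, hp1, hq1]; exact n2
        have z4 : χ u q.2 ≠ χ u (ρ v (ρ u p.2)) := by rw [c1, c2, hp1, hq1]; exact n2
        rw [hz' z1, hz' z2, hz z3, hz z4]
        simp
      · rw [ep' ⟨hup, h2⟩, eq' ⟨huq, h3⟩, h2, h3, ← hc u v huv]
        simp only [hinj]
        simp
  rw [key]
  ring

theorem si_step {χ χ' : V → X → ℤˣ} (hs : ∀ v, ¬ adj v v) (hρ : ∀ v x, ρ v (ρ v x) = x)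
    (hc : ∀ u v, adj u v → ∀ x, ρ u (ρ v x) = ρ v (ρ u x)) (h : OK adj ρ χ) (h' : OK adj ρ χ')
    (u : V) (hu : ∀ v, v ≠ u → χ' v = χ v) : SI adj o ρ χ χ' :=
  ⟨{ toFun := fun p => ⟨mv ρ χ' u p.1, mv_mem hs h h' u hu p.2⟩
     invFun := fun p => ⟨mv ρ χ u p.1, mv_mem hs h' h u (fun v hv => (hu v hv).symm) p.2⟩
     left_inv := fun p => Subtype.ext (mv_mv hρ h u p.2)
     right_inv := fun p => Subtype.ext (mv_mv hρ h' u p.2) },
   fun p => tau χ' u p.1, fun p => mv_fst _ _ _, fun p q => dm_mv hρ hc h h' u p.2 q.2⟩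

theorem si_all [Fintype V] {χ χ' : V → X → ℤˣ} (hs : ∀ v, ¬ adj v v)
    (hρ : ∀ v x, ρ v (ρ v x) = x)
    (hc : ∀ u v, adj u v → ∀ x, ρ u (ρ v x) = ρ v (ρ u x)) (h : OK adj ρ χ) (h' : OK adj ρ χ') :
    SI adj o ρ χ χ' := by
  have hOK : ∀ A : Finset V, OK adj ρ (fun v => if v ∈ A then χ' v else χ v) := fun A =>
    ⟨fun v x => by
      by_cases hv : v ∈ A
      · simp only [if_pos hv]
        exact h'.self v x
      · simp only [if_neg hv]
        exact h.self v x,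
     fun u v huv x => by
      by_cases hu : u ∈ A
      · simp only [if_pos hu]
        exact h'.ad u v huv x
      · simp only [if_neg hu]
        exact h.ad u v huv x⟩
  have key : ∀ A : Finset V, SI adj o ρ χ (fun v => if v ∈ A then χ' v else χ v) := by
    intro A
    induction A using Finset.induction_on with
    | empty =>
      have e : (fun v => if v ∈ (∅ : Finset V) then χ' v else χ v) = χ := by
        funext v
        simp
      rw [e]
      exact si_refl χ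
    | insert u A hu ih =>
      refine si_trans ih (si_step hs hρ hc (hOK A) (hOK (insert u A)) u fun v hv => ?_)
      have h1 : v ∈ insert u A ↔ v ∈ A := by
        rw [Finset.mem_insert]
        exact ⟨fun h2 => h2.resolve_left hv, Or.inr⟩
      simp only [h1]
  have h1 := key Finset.univ
  have e : (fun v => if v ∈ (Finset.univ : Finset V) then χ' v else χ v) = χ' := by
    funext v
    simp
  rwa [e] at h1

end

end Pool.LU.FK.Brg
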