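import Pool.Agent.H97.LUY.Cel
import Pool.Agent.H7.LU.RE3

/-!
Project LU, part Y, module BRG, second part: the complex of a finite cover is the complex of the
cells of the set `N \ W`.
-/

set_option autoImplicit false
set_option linter.unusedVariables false
set_option linter.unusedSectionVars false

open scoped BigOperators Topology
open Filter Pool.H3.L2 Pool.H29.L2

noncomputable section

namespace Pool.LU.FK.Brg

open RE

section

variable {V : Type} [Fintype V] [DecidableEq V] {adj : V → V → Prop} {W : Type} [Group W]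
  (R : RA V adj W) (g : (V → ℤˣ) → W) (hg : ∀ ε, R.χ (g ε) = ε)
  (N : Subgroup R.χ.ker) [N.Normal] [N.FiniteIndex]

open Classical in
theorem coeff_cubD (o : V → ℕ) (s t : CubS adj) (b : R.χ.ker ⧸ N) :
    (MonoidAlgebra.mapDomain (QuotientGroup.mk' N) (cubD R g hg o s t)).coeff b =
      ∑ u ∈ s.1.1, if t.1.1 = s.1.1.erase u then (sg o u (s.1.1.erase u) : ℤ) *
      ((if t.1.2 = s.1.2 then (if b = 1 then (1 : ℤ) else 0) else 0) -
       (if t.1.2 = s.1.2 * Pi.mulSingle u (-1) then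
        (if b = QuotientGroup.mk (tr R g hg s.1.2 u) then (1 : ℤ) else 0) else 0)) else 0 := by
  have hmap : ∀ x : GR R.χ.ker, MonoidAlgebra.mapDomain (QuotientGroup.mk' N) x =
      MonoidAlgebra.mapDomainRingHom ℤ (QuotientGroup.mk' N) x := fun _ => rfl
  have h1 : ∀ (ι : Type) (T : Finset ι) (f : ι → MonoidAlgebra ℤ (R.χ.ker ⧸ N)),
      (∑ i ∈ T, f i).coeff b = ∑ i ∈ T, (f i).coeff b := by
    intro ι T f
    rw [MonoidAlgebra.coeff_sum, Finsupp.finsetSum_apply]
  unfold cubD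
  rw [hmap, map_sum, h1]
  apply Finset.sum_congr rfl
  intro u _
  by_cases hA : t.1.1 = s.1.1.erase u
  · rw [if_pos hA, if_pos hA, map_zsmul, map_sub, MonoidAlgebra.coeff_smul,
      Finsupp.smul_apply, MonoidAlgebra.coeff_sub, Finsupp.sub_apply, smul_eq_mul]
    congr 1
    congr 1
    · by_cases hB : t.1.2 = s.1.2
      · rw [if_pos hB, if_pos hB, map_one, MonoidAlgebra.one_def, MonoidAlgebra.coeff_single,
          Finsupp.single_apply]
        by_cases hb : b = 1
        · rw [if_pos hb, if_pos hb.symm]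
        · rw [if_neg hb, if_neg (fun h => hb h.symm)]
      · rw [if_neg hB, if_neg hB, map_zero]; rfl
    · by_cases hC : t.1.2 = s.1.2 * Pi.mulSingle u (-1)
      · rw [if_pos hC, if_pos hC, ← hmap, MonoidAlgebra.mapDomain_single,
          MonoidAlgebra.coeff_single, Finsupp.single_apply]
        by_cases hb : b = QuotientGroup.mk (tr R g hg s.1.2 u)
        · rw [if_pos hb]; exact if_pos hb.symm
        · rw [if_neg hb]; exact if_neg (fun h => hb h.symm)
      · rw [if_neg hC, if_neg hC, map_zero]; rfl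
  · rw [if_neg hA, if_neg hA, map_zero]; rfl

variable {X : Type} [dX : DecidableEq X] (ρ : V → X → X) (φ : X ≃ (YN R g hg N).Y)

/-- the bijection of the bases -/
def ce : CubS adj × (R.χ.ker ⧸ N) ≃ Cel adj (fun v y => (YN R g hg N).χ (φ y) v) where
  toFun p := ⟨(p.1.1.1, φ.symm ((YN R g hg N).e p.1.1.2 p.2)), p.1.2.1, fun v hv => by
    refine Eq.trans (congrFun (Eq.trans (congrArg (YN R g hg N).χ
      (φ.apply_symm_apply ((YN R g hg N).e p.1.1.2 p.2))) ((YN R g hg N).χ_e _ _)) v) ?_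
    exact p.1.2.2 v hv⟩
  invFun c := (⟨(c.1.1, (YN R g hg N).χ (φ c.1.2)), c.2.1, c.2.2⟩, (YN R g hg N).κ (φ c.1.2))
  left_inv := by
    rintro ⟨⟨⟨σ, ε⟩, h⟩, q⟩
    refine Prod.ext (Subtype.ext (Prod.ext rfl ?_)) ?_
    · show (YN R g hg N).χ (φ (φ.symm ((YN R g hg N).e ε q))) = ε
      exact Eq.trans (congrArg (YN R g hg N).χ
        (φ.apply_symm_apply ((YN R g hg N).e ε q))) ((YN R g hg N).χ_e _ _)
    · show (YN R g hg N).κ (φ (φ.symm ((YN R g hg N).e ε q))) = q
      exact Eq.trans (congrArg (YN R g hg N).κ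
        (φ.apply_symm_apply ((YN R g hg N).e ε q))) ((YN R g hg N).κ_e _ _)
  right_inv := by
    rintro ⟨⟨σ, y⟩, h⟩
    refine Subtype.ext (Prod.ext rfl ?_)
    show φ.symm ((YN R g hg N).e ((YN R g hg N).χ (φ y)) ((YN R g hg N).κ (φ y))) = y
    rw [(YN R g hg N).e_κ, Equiv.symm_apply_apply]

theorem e_inj (ε ε' : V → ℤˣ) (q q' : (YN R g hg N).Q) :
    (YN R g hg N).e ε q = (YN R g hg N).e ε' q' ↔ ε = ε' ∧ q = q' := by
  constructor
  · intro h
    have h1 := congrArg (YN R g hg N).χ h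
    have h2 := congrArg (YN R g hg N).κ h
    rw [(YN R g hg N).χ_e, (YN R g hg N).χ_e] at h1
    rw [(YN R g hg N).κ_e, (YN R g hg N).κ_e] at h2
    exact ⟨h1, h2⟩
  · rintro ⟨rfl, rfl⟩
    rfl

open Classical in
theorem cov_entry (o : V → ℕ) (hφ : ∀ v y, φ (ρ v y) = (YN R g hg N).act (φ y) (R.s v))
    (s t : CubS adj × (R.χ.ker ⧸ N)) :
    regM (QuotientGroup.mk' N) (cubD R g hg o) s t =
      Dm o ρ (ce R g hg N φ s).1 (ce R g hg N φ t).1 := by
  obtain ⟨s, q⟩ := s
  obtain ⟨t, q'⟩ := t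
  have h0 : regM (QuotientGroup.mk' N) (cubD R g hg o) (s, q) (t, q') =
    (MonoidAlgebra.mapDomain (QuotientGroup.mk' N) (cubD R g hg o s t)).coeff (q⁻¹ * q') := rfl
  rw [h0, coeff_cubD]
  unfold Dm
  refine Finset.sum_congr rfl fun v hv => ?_
  have e1 : (ce R g hg N φ (t, q')).1.2 = (ce R g hg N φ (s, q)).1.2 ↔
      t.1.2 = s.1.2 ∧ q⁻¹ * q' = 1 := by
    refine Iff.trans (φ.symm.injective.eq_iff (a := (YN R g hg N).e t.1.2 q')
      (b := (YN R g hg N).e s.1.2 q)) (Iff.trans (e_inj R g hg N _ _ _ _) ?_)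
    exact and_congr_right fun _ => ⟨fun h => inv_mul_eq_one.2 h.symm,
      fun h => (inv_mul_eq_one.1 h).symm⟩
  have e2 : (ce R g hg N φ (t, q')).1.2 = ρ v (ce R g hg N φ (s, q)).1.2 ↔
      t.1.2 = s.1.2 * Pi.mulSingle v (-1) ∧ q⁻¹ * q' = QuotientGroup.mk (tr R g hg s.1.2 v) := by
    have h1 : φ (ρ v (ce R g hg N φ (s, q)).1.2) = (YN R g hg N).e (s.1.2 * Pi.mulSingle v (-1))
        (q * (QuotientGroup.mk (tr R g hg s.1.2 v) : R.χ.ker ⧸ N)) :=
      ((hφ v _).trans (congrArg (fun z => (YN R g hg N).act z (R.s v))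
        (φ.apply_symm_apply ((YN R g hg N).e s.1.2 q)))).trans ((YN R g hg N).e_s _ _ _)
    have h2 : φ (ce R g hg N φ (t, q')).1.2 = (YN R g hg N).e t.1.2 q' :=
      φ.apply_symm_apply ((YN R g hg N).e t.1.2 q')
    refine Iff.trans (φ.injective.eq_iff).symm ?_
    refine Iff.trans (iff_of_eq (congrArg₂ (fun a b => a = b) h2 h1))
      (Iff.trans (e_inj R g hg N _ _ _ _) ?_)
    exact and_congr_right fun _ => (inv_mul_eq_iff_eq_mul (G := R.χ.ker ⧸ N)).symm
  show (if t.1.1 = s.1.1.erase v then _ else 0) = (if t.1.1 = s.1.1.erase v then _ else 0)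
  by_cases hA : t.1.1 = s.1.1.erase v
  · rw [if_pos hA, if_pos hA]
    congr 1
    congr 1
    · by_cases hB : t.1.2 = s.1.2
      · refine Eq.trans (if_pos hB) ?_
        exact if_congr ⟨fun h => e1.2 ⟨hB, h⟩, fun h => (e1.1 h).2⟩ rfl rfl
      · refine Eq.trans (if_neg hB) (Eq.symm (if_neg ?_))
        exact fun h => hB (e1.1 h).1
    · by_cases hB : t.1.2 = s.1.2 * Pi.mulSingle v (-1)
      · refine Eq.trans (if_pos hB) ?_
        exact if_congr ⟨fun h => e2.2 ⟨hB, h⟩, fun h => (e2.1 h).2⟩ rfl rfl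
      · refine Eq.trans (if_neg hB) (Eq.symm (if_neg ?_))
        exact fun h => hB (e2.1 h).1
  · rw [if_neg hA, if_neg hA]

end

end Pool.LU.FK.Brg
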